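import Pool.Agent.GEN.StmtsV
import Pool.Agent.Helper47_GEN.DSB

/-!
# Squad GEN, row SBV: substitution
-/

set_option autoImplicit false

namespace Pool.Agent.GEN.H11

open MvPolynomial Pool.Agent.Helper6_Mono Pool.Agent.Helper30_Simp Pool.Agent.Helper30_Simp2
  Pool.Agent.GEN Pool.Agent.GEN.H47

section gen

variable {σ A : Type} [CommRing A]

theorem Psi_dWordR (ψ : A →+* Polynomial ℂ) (w : List σ) (p : MvPolynomial σ A) :
    Psi ψ (dWordR w p) = dWordR (w.map some) (Psi ψ p) := by
  unfold dWordR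
  induction w with
  | nil => rfl
  | cons i w ih => rw [List.foldr_cons, Psi_pderiv, ih, List.map_cons, List.foldr_cons]

/-- the transported operator -/
noncomputable def mapP (ψ : A →+* Polynomial ℂ)
    (P : List (Polynomial (MvPolynomial σ A) × List σ)) :
    List (Polynomial (MvPolynomial (Option σ) ℂ) × List (Option σ)) :=
  P.map (fun aw => (aw.1.map (Psi ψ), aw.2.map some))

theorem mapP_none (ψ : A →+* Polynomial ℂ) (P : List (Polynomial (MvPolynomial σ A) × List σ)) :
    ∀ aw ∈ mapP ψ P, (none : Option σ) ∉ aw.2 := by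
  intro aw haw
  unfold mapP at haw
  rw [List.mem_map] at haw
  obtain ⟨bw, -, rfl⟩ := haw
  simp

theorem Psi_opR (ψ : A →+* Polynomial ℂ) (P : List (Polynomial (MvPolynomial σ A) × List σ))
    (n : ℕ) (g : MvPolynomial σ A) : Psi ψ (opR P n g) = opR (mapP ψ P) n (Psi ψ g) := by
  unfold opR mapP
  rw [map_list_sum, List.map_map, List.map_map]
  congr 1
  refine List.map_congr_left fun aw _ => ?_
  simp only [Function.comp]
  rw [map_mul, Psi_dWordR]
  congr 1
  have h2 : (n : MvPolynomial (Option σ) ℂ) = Psi ψ (n : MvPolynomial σ A) := by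
    rw [map_natCast]
  rw [h2, Polynomial.eval_map_apply]

theorem jz_C (c : ℂ) : jz σ (Polynomial.C c) = C c := by
  unfold jz
  rw [Polynomial.coe_eval₂RingHom, Polynomial.eval₂_C]

end gen

/-- the specialised polynomial -/
noncomputable def fc {σ : Type} (M : Finset (σ →₀ ℕ)) (c : M → ℂ) : MvPolynomial σ ℂ :=
  ∑ α : M, monomial (α : σ →₀ ℕ) (c α)

theorem coeff_fc {σ : Type} (M : Finset (σ →₀ ℕ)) (c : M → ℂ) (α : M) :
    (fc M c).coeff (α : σ →₀ ℕ) = c α := by
  classical
  unfold fc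
  rw [coeff_sum, Finset.sum_eq_single α]
  · rw [coeff_monomial, if_pos rfl]
  · intro β _ hβ
    rw [coeff_monomial, if_neg (fun h => hβ (Subtype.ext h))]
  · intro h
    exact absurd (Finset.mem_univ α) h

theorem support_fc {σ : Type} (M : Finset (σ →₀ ℕ)) (c : M → ℂ) (hc : ∀ α, c α ≠ 0) :
    (fc M c).support = M := by
  classical
  ext β
  rw [mem_support_iff]
  constructor
  · intro h
    by_contra hβ
    apply h
    unfold fc
    rw [coeff_sum]
    refine Finset.sum_eq_zero fun α _ => ?_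
    rw [coeff_monomial, if_neg (fun h' : (α : σ →₀ ℕ) = β => hβ (h' ▸ α.2))]
  · intro h
    have := coeff_fc M c ⟨β, h⟩
    rw [this]
    exact hc _

theorem sbv : SbvStmt := by
  intro σ _ M s₀ a P Q ha hrel
  classical
  obtain ⟨c, hca, hcX⟩ : ∃ c : M → ℂ, aeval (R := ℚ) c a ≠ 0 ∧ ∀ α, c α ≠ 0 := by
    have h1 : a * ∏ α : M, (X α : MvPolynomial M ℚ) ≠ 0 :=
      mul_ne_zero ha (Finset.prod_ne_zero_iff.mpr fun α _ => X_ne_zero α)
    by_contra hcon
    push Not at hcon
    apply h1
    have h2 : map (algebraMap ℚ ℂ) (a * ∏ α : M, (X α : MvPolynomial M ℚ)) = 0 := by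
      refine MvPolynomial.funext fun c => ?_
      rw [eval_map, map_zero]
      have h3 : eval₂ (algebraMap ℚ ℂ) c (a * ∏ α : M, (X α : MvPolynomial M ℚ))
          = aeval c a * ∏ α : M, c α := by
        rw [← aeval_def, map_mul, map_prod]
        simp only [aeval_X]
      rw [h3]
      by_cases h4 : aeval (R := ℚ) c a = 0
      · rw [h4, zero_mul]
      · obtain ⟨α, hα⟩ := hcon c h4
        rw [Finset.prod_eq_zero (Finset.mem_univ α) hα, mul_zero]
    exact (map_eq_zero_iff _ (map_injective _ (algebraMap ℚ ℂ).injective)).mp h2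
  refine ⟨fc M c, support_fc M c hcX, ?_⟩
  intro ω
  set ψ : MvPolynomial M ℚ →+* Polynomial ℂ :=
    eval₂Hom (algebraMap ℚ (Polynomial ℂ)) (fun α : M =>
      Polynomial.C (c α) * Polynomial.X ^ ω (α : σ →₀ ℕ)) with hψ
  have hψX : ∀ α : M, ψ (X α) = Polynomial.C (c α) *
      Polynomial.X ^ ω (α : σ →₀ ℕ) := fun α => by rw [hψ, coe_eval₂Hom, eval₂_X]
  have hψC : ∀ r : ℚ, ψ (algebraMap ℚ _ r) = Polynomial.C (r : ℂ) := fun r => by
    rw [hψ, coe_eval₂Hom, MvPolynomial.algebraMap_eq, eval₂_C]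
    simp
  have hψa : ψ a ≠ 0 := by
    intro h0
    have h1 : ((Polynomial.evalRingHom (1 : ℂ)).comp ψ) = (aeval (R := ℚ) c).toRingHom := by
      refine MvPolynomial.ringHom_ext ?_ ?_
      · intro r
        have := hψC r
        rw [MvPolynomial.algebraMap_eq] at this
        rw [RingHom.comp_apply, this]
        simp
      · intro α
        rw [RingHom.comp_apply, hψX]
        simp
    have h2 := congrArg (fun g : MvPolynomial M ℚ →+* ℂ => g a) h1
    simp only [RingHom.comp_apply, h0, map_zero] at h2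
    exact hca h2.symm
  have hfg : Psi ψ (fgen M) = liftF ω (fc M c) := by
    unfold fgen liftF
    rw [map_sum, support_fc M c hcX, ← Finset.sum_coe_sort M]
    refine Finset.sum_congr rfl fun α _ => ?_
    rw [Psi_monomial ψ _ _ _ _ (hψX α), coeff_fc]
    rfl
  refine ⟨(ψ a).natDegree, fun e => (ψ a).coeff e, ⟨mapP ψ P, mapP ψ Q, mapP_none ψ P,
    mapP_none ψ Q, ?_⟩, (ψ a).natDegree, le_rfl, ?_⟩
  · intro n
    have h1 := congrArg (Psi ψ) (hrel n)
    have h3 : ψ ((n : MvPolynomial M ℚ) - algebraMap ℚ (MvPolynomial M ℚ) s₀)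
        = Polynomial.C ((n : ℂ) - (s₀ : ℂ)) := by
      rw [map_sub, hψC, map_natCast, map_sub]
      simp
    rw [map_mul, map_pow, Psi_C, hfg, map_add, map_mul, Psi_C, h3, jz_C, Psi_opR, Psi_opR,
      map_pow, map_pow, hfg, jz_eq le_rfl] at h1
    exact h1
  · exact Polynomial.leadingCoeff_ne_zero.mpr hψa

end Pool.Agent.GEN.H11
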